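import Pool.Agent.P.MP_e09449_gt.Example

/-!
MP_e09449_gt: an LCP manifold whose group `P̄⁰` is isomorphic to `ℝ × T²`, hence not simply
connected.
-/

open Pool.Agent.P.MP_e09449_gt

theorem Pool.Agent.Results.MP_e09449_gt.NotSimplyConnected.result :
    ∃ L : LCP, ¬ IsSimplyConnected L.Pbar0 ∧
      ∃ e : (ℝ × Circle × Circle) ≃ₜ L.Pbar0, ∀ a b : ℝ × Circle × Circle,
        (e (a.1 + b.1, a.2 * b.2) : C(L.N, L.N)) = (e a : C(L.N, L.N)).comp (e b) := by
  refine ⟨exLCP, fun h => ?_, exHomeo, fun a b => ?_⟩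
  · have : SimplyConnectedSpace exLCP.Pbar0 := h
    exact not_simplyConnected exHomeo.toHomotopyEquiv.simplyConnectedSpace
  · rw [exHomeo_coe, exHomeo_coe, exHomeo_coe]
    exact jj_mul a b
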